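import Pool.Agent.helper56.CDC.Def

/-!
# CDC-Cyc : a cyclic order of the edge ends at every vertex, with partial sums
-/

namespace CDC

theorem k3_add_self (a : K3) : a + a = 0 := by
  funext i
  exact CharTwo.add_self_eq_zero _

theorem exists_cyc {H W : Type*} [Fintype H] [DecidableEq H] [DecidableEq W] (vt : H → W)
    (f : H → K3) (hf : ∀ v, ∑ h ∈ Finset.univ.filter (fun h => vt h = v), f h = 0) :
    ∃ (σ : Equiv.Perm H) (p : H → K3), (∀ h, vt (σ h) = vt h) ∧
      ∀ h, p h + f (σ h) + p (σ h) = 0 := by
  let L : W → List H := fun v => (Finset.univ.filter (fun h => vt h = v)).toList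
  have hmem : ∀ v h, h ∈ L v ↔ vt h = v := by
    intro v h
    simp [L]
  have hnd : ∀ v, (L v).Nodup := fun v => Finset.nodup_toList _
  have hvt : ∀ h, vt ((L (vt h)).formPerm h) = vt h := fun h =>
    (hmem _ _).1 (List.formPerm_apply_mem_of_mem ((hmem _ _).2 rfl))
  have hvt' : ∀ h, vt ((L (vt h)).formPerm.symm h) = vt h := by
    intro h
    apply (hmem _ _).1
    apply List.mem_of_formPerm_apply_mem
    rw [Equiv.apply_symm_apply]
    exact (hmem _ _).2 rfl
  let σ : Equiv.Perm H :=
    { toFun := fun h => (L (vt h)).formPerm h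
      invFun := fun h => (L (vt h)).formPerm.symm h
      left_inv := by
        intro h
        show (L (vt ((L (vt h)).formPerm h))).formPerm.symm ((L (vt h)).formPerm h) = h
        rw [hvt h, Equiv.symm_apply_apply]
      right_inv := by
        intro h
        show (L (vt ((L (vt h)).formPerm.symm h))).formPerm ((L (vt h)).formPerm.symm h) = h
        rw [hvt' h, Equiv.apply_symm_apply] }
  have hσ : ∀ h, σ h = (L (vt h)).formPerm h := fun h => rfl
  refine ⟨σ, fun h => (((L (vt h)).take ((L (vt h)).idxOf h + 1)).map f).sum, hvt, ?_⟩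
  intro h
  have hv : vt (σ h) = vt h := hvt h
  simp only [hv]
  obtain ⟨l, hl⟩ : ∃ l, l = L (vt h) := ⟨_, rfl⟩
  have hnl : l.Nodup := by rw [hl]; exact hnd _
  have hhl : h ∈ l := by rw [hl]; exact (hmem _ _).2 rfl
  obtain ⟨i, hi, hgi, hie⟩ : ∃ i, ∃ hi : i < l.length, l[i] = h ∧ l.idxOf h = i :=
    ⟨l.idxOf h, List.idxOf_lt_length_iff.2 hhl, List.getElem_idxOf _, rfl⟩
  have hsum : (l.map f).sum = 0 := by
    rw [hl, ← hf (vt h)]
    exact Finset.sum_map_toList _ _
  rw [hσ h, ← hl]
  rw [hie]
  have hfp : l.formPerm h = l[(i + 1) % l.length]'(Nat.mod_lt _ (by omega)) := by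
    have := List.formPerm_apply_getElem l hnl i hi
    rw [hgi] at this
    exact this
  rw [hfp, List.Nodup.idxOf_getElem hnl]
  by_cases hlt : i + 1 < l.length
  · have hm : (i + 1) % l.length = i + 1 := Nat.mod_eq_of_lt hlt
    have e1 : (l.take ((i + 1) % l.length + 1)).map f =
        (l.take (i + 1)).map f ++ [f (l[(i + 1) % l.length]'(Nat.mod_lt _ (by omega)))] := by
      have htk : l.take ((i + 1) % l.length) = l.take (i + 1) := by rw [hm]
      rw [List.take_succ_eq_append_getElem (Nat.mod_lt _ (by omega)), List.map_append, htk]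
      rfl
    rw [e1, List.sum_append, List.sum_singleton]
    have := k3_add_self ((l.take (i + 1)).map f).sum
    have h2 := k3_add_self (f (l[(i + 1) % l.length]'(Nat.mod_lt _ (by omega))))
    calc _ = (((l.take (i + 1)).map f).sum + ((l.take (i + 1)).map f).sum) +
        (f (l[(i + 1) % l.length]'(Nat.mod_lt _ (by omega))) +
          f (l[(i + 1) % l.length]'(Nat.mod_lt _ (by omega)))) := by abel
      _ = 0 := by rw [this, h2, add_zero]
  · have hm : i + 1 = l.length := by omega
    have hm0 : (i + 1) % l.length = 0 := by rw [hm]; exact Nat.mod_self _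
    have e0 : ((l.take (i + 1)).map f).sum = 0 := by
      rw [hm, List.take_length]
      exact hsum
    have e1 : ((l.take ((i + 1) % l.length + 1)).map f).sum =
        f (l[(i + 1) % l.length]'(Nat.mod_lt _ (by omega))) := by
      rw [List.take_succ_eq_append_getElem (Nat.mod_lt _ (by omega)), List.map_append,
        List.sum_append]
      have : l.take ((i + 1) % l.length) = [] := by rw [hm0]; rfl
      rw [this]
      simp
    rw [e0, e1, zero_add]
    exact k3_add_self _

end CDC
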