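import Pool.Agent.helper56.CDC.Loc
import Pool.Agent.helper56.CDC.Cyc

/-!
# CDC-ThmA : every nowhere-zero flow with values in F_2^3 comes from a double cover by 8 even sets
-/

namespace CDC

variable {V E : Type*} [Fintype V] [DecidableEq V] [Fintype E] [DecidableEq E]

/-- the vertex of an edge end -/
def vt (s t : E → V) (h : E × Bool) : V := if h.2 then t h.1 else s h.1

theorem sum_vt {A : Type*} [AddCommMonoid A] (s t : E → V) (F : E → A) (v : V) :
    ∑ h ∈ Finset.univ.filter (fun h : E × Bool => vt s t h = v), F h.1 = bd s t F v := by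
  rw [Finset.sum_filter, Fintype.sum_prod_type]
  unfold bd
  refine Finset.sum_congr rfl fun e _ => ?_
  rw [Fintype.sum_bool, add_comm]
  rfl

/-- the expanded graph -/
def sX (E : Type*) : E ⊕ (E × Bool) → E × Bool := Sum.elim (fun e => (e, false)) id

def tX (σ : Equiv.Perm (E × Bool)) : E ⊕ (E × Bool) → E × Bool :=
  Sum.elim (fun e => (e, true)) (fun h => σ h)

theorem bd_X {A : Type*} [AddCommMonoid A] (σ : Equiv.Perm (E × Bool)) (F : E ⊕ (E × Bool) → A)
    (k : E × Bool) : bd (sX E) (tX σ) F k =
      F (Sum.inl k.1) + (F (Sum.inr k) + F (Sum.inr (σ.symm k))) := by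
  unfold bd
  rw [Fintype.sum_sum_type]
  congr 1
  · obtain ⟨e0, b⟩ := k
    have : ∀ e : E, ((if sX E (Sum.inl e) = (e0, b) then F (Sum.inl e) else 0) +
        (if tX σ (Sum.inl e) = (e0, b) then F (Sum.inl e) else 0)) =
          if e = e0 then F (Sum.inl e) else 0 := by
      intro e
      by_cases he : e = e0
      · subst he
        cases b <;> simp [sX, tX]
      · simp [sX, tX, he]
    rw [Finset.sum_congr rfl fun e _ => this e]
    simp
  · have : ∀ h : E × Bool, ((if sX E (Sum.inr h) = k then F (Sum.inr h) else 0) +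
        (if tX σ (Sum.inr h) = k then F (Sum.inr h) else 0)) =
          (if h = k then F (Sum.inr h) else 0) + (if h = σ.symm k then F (Sum.inr h) else 0) := by
      intro h
      congr 1
      have : (tX σ (Sum.inr h) = k) ↔ (h = σ.symm k) := by
        show σ h = k ↔ _
        exact (Equiv.eq_symm_apply σ).symm
      simp only [this]
    rw [Finset.sum_congr rfl fun h _ => this h, Finset.sum_add_distrib]
    simp

theorem par_shift {f y : K3} (hd : dot y f = f 0 * f 1 * f 2) (x : K3) :
    par f y (x + f) = par f y x := by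
  have key : qf f (x + f) + dot y (x + f) = qf f x + dot y x := by
    have h1 : df f x f = 0 := by
      have : ∀ f0 f1 f2 x0 x1 x2 : ZMod 2, f0 * (x1 * f2 + x2 * f1) + f1 * (x0 * f2 + x2 * f0) +
          f2 * (x0 * f1 + x1 * f0) = 0 := by decide
      exact this _ _ _ _ _ _
    have h2 : qf f f = f 0 * f 1 * f 2 := by
      have : ∀ f0 f1 f2 : ZMod 2, f0 * (f1 * f2) + f1 * (f0 * f2) + f2 * (f0 * f1) =
          f0 * f1 * f2 := by decide
      exact this _ _ _
    have h3 : dot y (x + f) = dot y x + dot y f := by
      unfold dot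
      simp only [Pi.add_apply]
      ring
    rw [qf_add, h1, h2, h3, hd]
    have : ∀ a b c : ZMod 2, a + c + 0 + (b + c) = a + b := by decide
    exact this _ _ _
  unfold par
  split_ifs
  · rfl
  · exact key
  · exact congrArg (fun z => z + 1) key

theorem pairs (s t : E → V) (f : E → K3) (hf : IsFlow s t f) (h0 : ∀ e, f e ≠ 0) :
    ∃ P : E → K3 → ZMod 2, (∀ x v, bd s t (fun e => P e x) v = 0) ∧
      (∀ e, (Finset.univ.filter (fun x => P e x = 1)).card = 2) ∧
      ∀ e x, P e (x + f e) = P e x := by
  obtain ⟨σ, p, hσ, hp⟩ := exists_cyc (vt s t) (fun h => f h.1) (by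
    intro v
    rw [sum_vt s t f v]
    exact hf v)
  have hfl : IsFlow (sX E) (tX σ) (Sum.elim f p) := by
    intro k
    rw [bd_X]
    have := hp (σ.symm k)
    rw [Equiv.apply_symm_apply] at this
    show f k.1 + (p k + p (σ.symm k)) = 0
    rw [← this]
    abel
  obtain ⟨y, hy, hd, hz⟩ := lift' _ _ _ hfl
  have htri : ∀ (k : E × Bool) (x : K3), par (f k.1) (y (Sum.inl k.1)) x +
      par (p k) (y (Sum.inr k)) x + par (p (σ.symm k)) (y (Sum.inr (σ.symm k))) x = 0 := by
    intro k x
    apply par_tri
    · have := hfl k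
      rw [bd_X, ← add_assoc] at this
      exact this
    · have := hy k
      rw [bd_X, ← add_assoc] at this
      exact this
    · exact hd (Sum.inl k.1)
    · exact hd (Sum.inr k)
    · exact hd (Sum.inr (σ.symm k))
    · exact hz (Sum.inl k.1)
    · exact hz (Sum.inr k)
    · exact hz (Sum.inr (σ.symm k))
  refine ⟨fun e => par (f e) (y (Sum.inl e)), ?_, ?_, ?_⟩
  · intro x v
    rw [← sum_vt s t (fun e => par (f e) (y (Sum.inl e)) x) v]
    have e1 : ∀ k : E × Bool, par (f k.1) (y (Sum.inl k.1)) x =
        par (p k) (y (Sum.inr k)) x + par (p (σ.symm k)) (y (Sum.inr (σ.symm k))) x := by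
      intro k
      have h := htri k x
      have h2 : ∀ a b c : ZMod 2, a + b + c = 0 → a = b + c := by decide
      exact h2 _ _ _ h
    rw [Finset.sum_congr rfl fun k _ => e1 k, Finset.sum_add_distrib]
    have e2 : ∑ k ∈ Finset.univ.filter (fun h : E × Bool => vt s t h = v),
        par (p (σ.symm k)) (y (Sum.inr (σ.symm k))) x =
        ∑ k ∈ Finset.univ.filter (fun h : E × Bool => vt s t h = v),
          par (p k) (y (Sum.inr k)) x := by
      refine Finset.sum_equiv σ.symm ?_ (fun _ _ => rfl)
      intro k
      simp only [Finset.mem_filter, Finset.mem_univ, true_and]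
      have := hσ (σ.symm k)
      rw [Equiv.apply_symm_apply] at this
      rw [this]
    rw [e2]
    exact CharTwo.add_self_eq_zero _
  · intro e
    exact par_card (h0 e) (hd (Sum.inl e))
  · intro e x
    exact par_shift (hd (Sum.inl e)) x

/-- THEOREM A -/
theorem theoremA (s t : E → V) (f : E → K3) (hf : IsFlow s t f) (h0 : ∀ e, f e ≠ 0) :
    ∃ C : K3 → Finset E, (∀ a, EvSet s t (C a)) ∧
      (∀ e, (Finset.univ.filter (fun a => e ∈ C a)).card = 2) ∧
      ∀ e a, e ∈ C a → e ∈ C (a + f e) := by
  obtain ⟨P, hP, hc, hs⟩ := pairs s t f hf h0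
  refine ⟨fun a => Finset.univ.filter (fun e => P e a = 1), ?_, ?_, ?_⟩
  · intro a v
    have h := hP a v
    rw [← ZMod.natCast_eq_zero_iff_even, ← h]
    unfold bd
    rw [Finset.sum_add_distrib, Nat.cast_add]
    have key : ∀ r : E → V,
        ((((Finset.univ.filter (fun e => P e a = 1)).filter (fun e => r e = v)).card : ℕ) :
          ZMod 2) = ∑ e, (if r e = v then P e a else 0) := by
      intro r
      rw [Finset.filter_filter, Finset.card_filter, Nat.cast_sum]
      refine Finset.sum_congr rfl fun e _ => ?_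
      by_cases h1 : r e = v
      · by_cases h2 : P e a = 1
        · simp [h1, h2]
        · have h3 : P e a = 0 := by
            by_contra h
            exact h2 (zmod2_ne h)
          simp [h1, h3]
      · simp [h1]
    rw [key s, key t]
  · intro e
    simp only [Finset.mem_filter, Finset.mem_univ, true_and]
    exact hc e
  · intro e a he
    simp only [Finset.mem_filter, Finset.mem_univ, true_and] at he ⊢
    rw [hs]
    exact he

end CDC
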