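import Mathlib

/-!
# CDC-Def : finite multigraphs, flows, even sets (definitions)

A finite multigraph is given by two maps s, t from the edge type E to the vertex type V: the edge e joins
s e and t e.  Loops and parallel edges are allowed; the orientation plays no role in characteristic 2.
-/

namespace CDC

variable {V E : Type*} [Fintype V] [DecidableEq V] [Fintype E] [DecidableEq E]

/-- the space of colours -/
abbrev K3 : Type := Fin 3 → ZMod 2

/-- the sum of f over the edge ends at v -/
def bd {A : Type*} [AddCommMonoid A] (s t : E → V) (f : E → A) (v : V) : A :=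
  ∑ e, ((if s e = v then f e else 0) + (if t e = v then f e else 0))

/-- f is a flow with values in a group of exponent 2 -/
def IsFlow {A : Type*} [AddCommMonoid A] (s t : E → V) (f : E → A) : Prop :=
  ∀ v, bd s t f v = 0

/-- even edge set: every vertex has even degree (loops count twice) -/
def EvSet (s t : E → V) (C : Finset E) : Prop :=
  ∀ v, Even ((C.filter (fun e => s e = v)).card + (C.filter (fun e => t e = v)).card)

/-- the edge cut of X -/
def cut (s t : E → V) (X : Finset V) : Finset E :=
  Finset.univ.filter (fun e => ¬ (s e ∈ X ↔ t e ∈ X))

/-- no edge cut consists of a single edge -/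
def Bridgeless (s t : E → V) : Prop := ∀ X : Finset V, (cut s t X).card ≠ 1

/-- a circuit: a minimal nonempty even edge set -/
def IsCirc (s t : E → V) (C : Finset E) : Prop :=
  C.Nonempty ∧ EvSet s t C ∧ ∀ D ⊆ C, D.Nonempty → EvSet s t D → D = C

/-- the dot product -/
def dot (x y : K3) : ZMod 2 := x 0 * y 0 + x 1 * y 1 + x 2 * y 2

end CDC
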