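import Pool.Agent.helper56.CDC.Def

/-!
# CDC-Lift : the main linear algebra lemma

For every flow f with values in F_2^3 there is a flow y with values in F_2^3 such that
y_e . f_e = f_e0 f_e1 f_e2 for every edge e.  The proof is by duality: if t_e f_e = c_u + c_v then
sum t_e f_e0 f_e1 f_e2 = sum_e q(f_e, c_u + c_v) = sum_v q(sum f, c_v) + sum_e det(f_e, c_u, c_v) = 0,
where q(f, x) = f0 x1 x2 + f1 x0 x2 + f2 x0 x1.
-/

namespace CDC

variable {V E : Type*} [Fintype V] [DecidableEq V] [Fintype E] [DecidableEq E]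

theorem exists_dual {I : Type*} [Fintype I] [DecidableEq I] (p : Submodule (ZMod 2) (I → ZMod 2))
    (x : I → ZMod 2) (hx : x ∉ p) :
    ∃ t : I → ZMod 2, (∀ z ∈ p, ∑ i, t i * z i = 0) ∧ ∑ i, t i * x i ≠ 0 := by
  obtain ⟨f, hfx, hp⟩ := Submodule.exists_le_ker_of_notMem hx
  have key : ∀ z : I → ZMod 2, f z = ∑ i, f (Pi.single i 1) * z i := by
    intro z
    have hz : z = ∑ i, z i • (Pi.single i (1 : ZMod 2) : I → ZMod 2) := by
      funext j
      rw [Finset.sum_apply]
      simp only [Pi.smul_apply, smul_eq_mul, Pi.single_apply]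
      simp
    conv_lhs => rw [hz]
    rw [map_sum]
    refine Finset.sum_congr rfl fun i _ => ?_
    rw [map_smul, smul_eq_mul, mul_comm]
  refine ⟨fun i => f (Pi.single i 1), fun z hz => ?_, ?_⟩
  · rw [← key z]
    exact LinearMap.mem_ker.1 (hp hz)
  · rw [← key x]
    exact hfx

theorem bd_add {A : Type*} [AddCommMonoid A] (s t : E → V) (f g : E → A) (v : V) :
    bd s t (fun e => f e + g e) v = bd s t f v + bd s t g v := by
  unfold bd
  rw [← Finset.sum_add_distrib]
  refine Finset.sum_congr rfl fun e _ => ?_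
  split_ifs
  · exact add_add_add_comm _ _ _ _
  · simp
  · simp
  · simp

/-- a linear functional of the boundary -/
theorem map_bd {A B : Type*} [AddCommMonoid A] [AddCommMonoid B] (φ : A →+ B) (s t : E → V)
    (f : E → A) (v : V) : φ (bd s t f v) = bd s t (fun e => φ (f e)) v := by
  unfold bd
  rw [map_sum]
  refine Finset.sum_congr rfl fun e _ => ?_
  rw [map_add]
  congr 1 <;> split_ifs <;> simp

/-- sum over the edges of a function of both ends -/
theorem sum_ends {B : Type*} [AddCommMonoid B] (s t : E → V) (F : E → V → B) :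
    ∑ e, (F e (s e) + F e (t e)) =
      ∑ v, ∑ e, ((if s e = v then F e v else 0) + (if t e = v then F e v else 0)) := by
  rw [Finset.sum_comm]
  refine Finset.sum_congr rfl fun e _ => ?_
  rw [Finset.sum_add_distrib]
  congr 1 <;> simp

/-- an edge function which is orthogonal to all flows is a coboundary -/
theorem exists_pot (s t : E → V) (g : E → K3)
    (hg : ∀ y : E → K3, IsFlow s t y → ∑ e, dot (y e) (g e) = 0) :
    ∃ c : V → K3, ∀ e, g e = c (s e) + c (t e) := by
  by_contra hno
  -- the coboundaries as a subspace of functions on E × Fin 3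
  let p : Submodule (ZMod 2) (E × Fin 3 → ZMod 2) :=
    { carrier := {z | ∃ c : V → K3, ∀ x, z x = c (s x.1) x.2 + c (t x.1) x.2}
      add_mem' := by
        rintro z w ⟨c, hc⟩ ⟨d, hd⟩
        refine ⟨fun v => c v + d v, fun x => ?_⟩
        simp only [Pi.add_apply, hc, hd]
        ring
      zero_mem' := ⟨fun _ => 0, fun x => by simp⟩
      smul_mem' := by
        rintro a z ⟨c, hc⟩
        refine ⟨fun v => a • c v, fun x => ?_⟩
        simp only [Pi.smul_apply, smul_eq_mul, hc]
        ring }
  have hx : (fun x : E × Fin 3 => g x.1 x.2) ∉ p := by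
    rintro ⟨c, hc⟩
    exact hno ⟨c, fun e => funext fun i => hc (e, i)⟩
  obtain ⟨T, hT1, hT2⟩ := exists_dual p _ hx
  apply hT2
  have hfl : IsFlow s t (fun e => (fun i => T (e, i) : K3)) := by
    intro v
    funext i
    have h1 := hT1 (fun x => (Pi.single v (Pi.single i (1 : ZMod 2) : K3) : V → K3) (s x.1) x.2 +
      (Pi.single v (Pi.single i (1 : ZMod 2) : K3) : V → K3) (t x.1) x.2)
      ⟨Pi.single v (Pi.single i 1), fun x => rfl⟩
    rw [Fintype.sum_prod_type] at h1
    have h2 : bd s t (fun e => (fun i => T (e, i) : K3)) v i =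
        ∑ e, ((if s e = v then T (e, i) else 0) + (if t e = v then T (e, i) else 0)) := by
      unfold bd
      rw [Finset.sum_apply]
      refine Finset.sum_congr rfl fun e _ => ?_
      rw [Pi.add_apply]
      congr 1 <;> split_ifs <;> rfl
    rw [h2]
    rw [Pi.zero_apply]
    refine Eq.trans ?_ h1
    refine Finset.sum_congr rfl fun e _ => ?_
    have h3 : ∀ w : V, ∀ j : Fin 3,
        (Pi.single v (Pi.single i (1 : ZMod 2) : K3) : V → K3) w j =
          if w = v then (if j = i then 1 else 0) else 0 := by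
      intro w j
      by_cases hw : w = v
      · subst hw
        rw [Pi.single_eq_same, if_pos rfl, Pi.single_apply]
      · rw [Pi.single_eq_of_ne hw, if_neg hw]
        rfl
    simp only [h3]
    by_cases h4 : s e = v <;> by_cases h5 : t e = v <;>
      simp [h4, h5, mul_add, Finset.sum_add_distrib]
  have h := hg _ hfl
  rw [Fintype.sum_prod_type]
  rw [← h]
  refine Finset.sum_congr rfl fun e _ => ?_
  rw [Fin.sum_univ_three]
  rfl

/-- the quadratic function -/
def qf (f x : K3) : ZMod 2 := f 0 * (x 1 * x 2) + f 1 * (x 0 * x 2) + f 2 * (x 0 * x 1)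

/-- its polar form -/
def df (f x y : K3) : ZMod 2 :=
  f 0 * (x 1 * y 2 + x 2 * y 1) + f 1 * (x 0 * y 2 + x 2 * y 0) + f 2 * (x 0 * y 1 + x 1 * y 0)

theorem qf_add (f x y : K3) : qf f (x + y) = qf f x + qf f y + df f x y := by
  unfold qf df
  simp only [Pi.add_apply]
  ring

/-- q is additive in the first variable -/
def qfHom (x : K3) : K3 →+ ZMod 2 where
  toFun f := qf f x
  map_zero' := by simp [qf]
  map_add' f g := by
    unfold qf
    simp only [Pi.add_apply]
    ring

theorem df_aux : ∀ f0 f1 f2 x0 x1 x2 y0 y1 y2 t : ZMod 2,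
    t * f0 = x0 + y0 → t * f1 = x1 + y1 → t * f2 = x2 + y2 →
    f0 * (x1 * y2 + x2 * y1) + f1 * (x0 * y2 + x2 * y0) + f2 * (x0 * y1 + x1 * y0) = 0 := by
  decide

theorem df_zero {f x y : K3} {t : ZMod 2} (h : ∀ i, t * f i = x i + y i) : df f x y = 0 :=
  df_aux _ _ _ _ _ _ _ _ _ t (h 0) (h 1) (h 2)

theorem tau_aux : ∀ f0 f1 f2 t : ZMod 2,
    t * (f0 * f1 * f2) = f0 * ((t * f1) * (t * f2)) + f1 * ((t * f0) * (t * f2)) +
      f2 * ((t * f0) * (t * f1)) := by
  decide

theorem tau_eq {f x y : K3} {t : ZMod 2} (h : ∀ i, t * f i = x i + y i) :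
    t * (f 0 * f 1 * f 2) = qf f (x + y) := by
  unfold qf
  simp only [Pi.add_apply, ← h]
  exact tau_aux _ _ _ _

/-- the main lemma -/
theorem lift (s t : E → V) (f : E → K3) (hf : IsFlow s t f) :
    ∃ y : E → K3, IsFlow s t y ∧ ∀ e, dot (y e) (f e) = f e 0 * f e 1 * f e 2 := by
  by_contra hno
  let p : Submodule (ZMod 2) (E → ZMod 2) :=
    { carrier := {z | ∃ y : E → K3, IsFlow s t y ∧ ∀ e, z e = dot (y e) (f e)}
      add_mem' := by
        rintro z w ⟨y, hy, hz⟩ ⟨y', hy', hw⟩
        refine ⟨fun e => y e + y' e, fun v => ?_, fun e => ?_⟩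
        · rw [bd_add, hy v, hy' v, add_zero]
        · simp only [Pi.add_apply, hz, hw, dot]
          ring
      zero_mem' := ⟨fun _ => 0, fun v => by simp [bd], fun e => by simp [dot]⟩
      smul_mem' := by
        rintro a z ⟨y, hy, hz⟩
        refine ⟨fun e => a • y e, fun v => ?_, fun e => ?_⟩
        · have := map_bd (DistribSMul.toAddMonoidHom K3 a) s t y v
          rw [hy v] at this
          simp only [DistribSMul.toAddMonoidHom_apply, smul_zero] at this
          exact this.symm
        · simp only [Pi.smul_apply, smul_eq_mul, hz, dot]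
          ring }
  have hx : (fun e => f e 0 * f e 1 * f e 2) ∉ p := by
    rintro ⟨y, hy, hz⟩
    exact hno ⟨y, hy, fun e => (hz e).symm⟩
  obtain ⟨T, hT1, hT2⟩ := exists_dual p _ hx
  apply hT2
  obtain ⟨c, hc⟩ := exists_pot s t (fun e => T e • f e) (by
    intro y hy
    have := hT1 (fun e => dot (y e) (f e)) ⟨y, hy, fun _ => rfl⟩
    rw [← this]
    refine Finset.sum_congr rfl fun e _ => ?_
    simp only [dot, Pi.smul_apply, smul_eq_mul]
    ring)
  have hc' : ∀ e i, T e * f e i = c (s e) i + c (t e) i := by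
    intro e i
    have := congrFun (hc e) i
    simpa using this
  have h1 : ∀ e, T e * (f e 0 * f e 1 * f e 2) = qf (f e) (c (s e)) + qf (f e) (c (t e)) := by
    intro e
    rw [tau_eq (hc' e), qf_add, df_zero (hc' e), add_zero]
  rw [Finset.sum_congr rfl fun e _ => h1 e]
  rw [sum_ends s t (fun e v => qf (f e) (c v))]
  refine Finset.sum_eq_zero fun v _ => ?_
  have h2 := map_bd (qfHom (c v)) s t f v
  rw [hf v, map_zero] at h2
  exact h2.symm

end CDC
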