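import Pool.Agent.helper56.CDC.Lift

/-!
# CDC-Loc : pairs of colours

For f ≠ 0 and y . f = f0 f1 f2 the function q(f, x) + y . x has weight 2 or 6; par f y is this function
or its complement, so that its weight is 2.
-/

namespace CDC

variable {V E : Type*} [Fintype V] [DecidableEq V] [Fintype E] [DecidableEq E]

/-- the pair function of (f, y); zero if f = 0 -/
def par (f y : K3) : K3 → ZMod 2 :=
  if f = 0 then fun _ => 0
  else if (Finset.univ.filter (fun x : K3 => qf f x + dot y x = 1)).card = 2 then
    fun x => qf f x + dot y x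
  else fun x => qf f x + dot y x + 1

theorem card_aux : ∀ f y : K3, f ≠ 0 → dot y f = f 0 * f 1 * f 2 →
    (Finset.univ.filter (fun x : K3 => qf f x + dot y x = 1)).card = 2 ∨
    (Finset.univ.filter (fun x : K3 => qf f x + dot y x + 1 = 1)).card = 2 := by
  decide

theorem par_card {f y : K3} (hf : f ≠ 0) (h : dot y f = f 0 * f 1 * f 2) :
    (Finset.univ.filter (fun x : K3 => par f y x = 1)).card = 2 := by
  unfold par
  rw [if_neg hf]
  split_ifs with h2
  · exact h2
  · exact (card_aux f y hf h).resolve_left h2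

theorem par_card_le {f y : K3} (h : dot y f = f 0 * f 1 * f 2) :
    (Finset.univ.filter (fun x : K3 => par f y x = 1)).card ≤ 2 := by
  by_cases hf : f = 0
  · have : (Finset.univ.filter (fun x : K3 => par f y x = 1)) = ∅ := by
      rw [Finset.filter_eq_empty_iff]
      intro x _
      unfold par
      rw [if_pos hf]
      decide
    rw [this]
    simp
  · exact le_of_eq (par_card hf h)

theorem par_form {f y : K3} (h0 : f = 0 → y = 0) :
    ∃ k : ZMod 2, ∀ x, par f y x = qf f x + dot y x + k := by
  by_cases hf : f = 0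
  · refine ⟨0, fun x => ?_⟩
    unfold par
    rw [if_pos hf, h0 hf, hf]
    simp [qf, dot]
  · unfold par
    rw [if_neg hf]
    split_ifs
    · exact ⟨0, fun x => by rw [add_zero]⟩
    · exact ⟨1, fun x => rfl⟩

theorem zmod2_ne {a : ZMod 2} (h : a ≠ 0) : a = 1 := by
  revert h
  revert a
  decide

/-- three pairs around a node of degree at most three -/
theorem par_tri {f1 f2 f3 y1 y2 y3 : K3} (hf : f1 + f2 + f3 = 0) (hy : y1 + y2 + y3 = 0)
    (h1 : dot y1 f1 = f1 0 * f1 1 * f1 2) (h2 : dot y2 f2 = f2 0 * f2 1 * f2 2)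
    (h3 : dot y3 f3 = f3 0 * f3 1 * f3 2) (z1 : f1 = 0 → y1 = 0) (z2 : f2 = 0 → y2 = 0)
    (z3 : f3 = 0 → y3 = 0) (x : K3) : par f1 y1 x + par f2 y2 x + par f3 y3 x = 0 := by
  obtain ⟨k1, e1⟩ := par_form z1
  obtain ⟨k2, e2⟩ := par_form z2
  obtain ⟨k3, e3⟩ := par_form z3
  have hc : ∀ x, par f1 y1 x + par f2 y2 x + par f3 y3 x = k1 + k2 + k3 := by
    intro x
    have hf' : ∀ i, f1 i + f2 i + f3 i = 0 := fun i => congrFun hf i
    have hy' : ∀ i, y1 i + y2 i + y3 i = 0 := fun i => congrFun hy i
    rw [e1, e2, e3]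
    unfold qf dot
    linear_combination (x 1 * x 2) * hf' 0 + (x 0 * x 2) * hf' 1 + (x 0 * x 1) * hf' 2 +
      x 0 * hy' 0 + x 1 * hy' 1 + x 2 * hy' 2
  rw [hc x]
  by_contra hne
  have h1' : ∀ x, par f1 y1 x + par f2 y2 x + par f3 y3 x = 1 := fun x => by
    rw [hc x]
    exact zmod2_ne hne
  have hcov : (Finset.univ : Finset K3) ⊆
      (Finset.univ.filter (fun x : K3 => par f1 y1 x = 1)) ∪
      ((Finset.univ.filter (fun x : K3 => par f2 y2 x = 1)) ∪
       (Finset.univ.filter (fun x : K3 => par f3 y3 x = 1))) := by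
    intro x _
    simp only [Finset.mem_union, Finset.mem_filter, Finset.mem_univ, true_and]
    by_contra hn
    push_neg at hn
    obtain ⟨n1, n2, n3⟩ := hn
    have m1 : par f1 y1 x = 0 := by
      by_contra h
      exact n1 (zmod2_ne h)
    have m2 : par f2 y2 x = 0 := by
      by_contra h
      exact n2 (zmod2_ne h)
    have m3 : par f3 y3 x = 0 := by
      by_contra h
      exact n3 (zmod2_ne h)
    have := h1' x
    rw [m1, m2, m3] at this
    exact absurd this (by decide)
  have hcard := Finset.card_le_card hcov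
  have hu1 := Finset.card_union_le (Finset.univ.filter (fun x : K3 => par f1 y1 x = 1))
    ((Finset.univ.filter (fun x : K3 => par f2 y2 x = 1)) ∪
       (Finset.univ.filter (fun x : K3 => par f3 y3 x = 1)))
  have hu2 := Finset.card_union_le (Finset.univ.filter (fun x : K3 => par f2 y2 x = 1))
       (Finset.univ.filter (fun x : K3 => par f3 y3 x = 1))
  have c1 := par_card_le h1
  have c2 := par_card_le h2
  have c3 := par_card_le h3
  have c8 : (Finset.univ : Finset K3).card = 8 := by decide
  omega

/-- restriction to a subset of the edges -/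
theorem bd_sub {A : Type*} [AddCommMonoid A] (s t : E → V) (q : E → Prop) [DecidablePred q]
    (g : {e : E // q e} → A) (v : V) :
    bd (fun e : {e : E // q e} => s e.1) (fun e => t e.1) g v =
      bd s t (fun e => if h : q e then g ⟨e, h⟩ else 0) v := by
  unfold bd
  symm
  rw [← Finset.sum_filter_of_ne (p := q)]
  · rw [Finset.sum_subtype (Finset.univ.filter q) (p := q) (by simp)]
    refine Finset.sum_congr rfl fun e _ => ?_
    simp only [dif_pos e.2]
  · intro e _ hne
    by_contra hq
    apply hne
    simp only [dif_neg hq]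
    simp

/-- the main lemma with y = 0 where f = 0 -/
theorem lift' (s t : E → V) (f : E → K3) (hf : IsFlow s t f) :
    ∃ y : E → K3, IsFlow s t y ∧ (∀ e, dot (y e) (f e) = f e 0 * f e 1 * f e 2) ∧
      ∀ e, f e = 0 → y e = 0 := by
  have hf' : IsFlow (fun e : {e : E // f e ≠ 0} => s e.1) (fun e => t e.1) (fun e => f e.1) := by
    intro v
    rw [bd_sub s t (fun e => f e ≠ 0) (fun e => f e.1) v]
    have : (fun e => if h : f e ≠ 0 then f e else 0) = f := by
      funext e
      split_ifs with h
      · rfl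
      · exact (not_not.1 h).symm
    show bd s t (fun e => if h : f e ≠ 0 then f e else 0) v = 0
    rw [this]
    exact hf v
  obtain ⟨y, hy, hd⟩ := lift _ _ _ hf'
  refine ⟨fun e => if h : f e ≠ 0 then y ⟨e, h⟩ else 0, fun v => ?_, fun e => ?_, fun e he => ?_⟩
  · rw [← bd_sub s t (fun e => f e ≠ 0) y v]
    exact hy v
  · by_cases h : f e ≠ 0
    · simp only [dif_pos h]
      exact hd ⟨e, h⟩
    · simp only [dif_neg h]
      rw [not_not.1 h]
      simp [dot]
  · exact dif_neg (not_not.2 he)

end CDC
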